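import Pool.Agent.W475.BG.All
import Pool.Agent.W475.BG.Flw
import Pool.Agent.W50.BG.PRM
import Pool.Agent.W475.BG.Eci
import Pool.Agent.W470.BG.NF1L

/-!
# The backward heat flow of the L-functions of elliptic curves

`E : y² = x³ + a x + b` is an elliptic curve over `ℚ` of conductor `N` and `Λ` its completed
L-function; `Λ_t = e^{t D²} Λ` (`D = d/ds`) is the heat flow of `Λ`.  The Riemann hypothesis for `E`
says that all zeros of `Λ_t` are on the line `Re s = 1` for all `t > 0`.  The analogue of Newman's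
conjecture (Dobner 2021, for the extended Selberg class) says that for every `t < 0` there is at least
one zero of `Λ_t` which is not on the line.

We prove for every `E` and EVERY `t = -κ < 0` that at least half of the zeros of `Λ_t` are not on the
line, and we determine the exact distribution of the zeros in the outer half of the strip which they
fill: `Λ_t` has `(2/π) R log R (1 + o(1))` zeros with `|s - 1| ≤ R`, and for `1/2 < u ≤ v ≤ 1` a
proportion which tends to `(v - u) / 2` of them has `u ≤ (Re s - 1) / (2 κ log R) ≤ v`, and the same on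
the left of the line.

`E` enters through its newform `f` (modularity, Wiles, Taylor-Wiles, Breuil-Conrad-Diamond-Taylor) and
through two weak consequences of the theory of Rankin and Selberg for `f`.

Proof.  Modules `Pool.Agent.W475.BG` (helper475, with helpers 2, 45, 50, 52, 99, 195, 202, 236, 273, 304,
308, 334, 351, 356, 398, 403, 490, 605, 661, 691, 721, 768, 782, 790, 836, 847, 930, 962, and the modules
`Pool.Agent.W475.BH` of the case of the Riemann zeta function).  Near a point of height `t` the function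
`Λ_{-κ}` is the gamma factor times a sum over `n` of the coefficients against a Gaussian in `log n`
centred at a point which moves with `Re s`; in the outer half of the strip the centre is below
`(log t) / 2`, where mean squares of Dirichlet polynomials show that the sum is not small in any box of
size `ω log t`, for all but few `t`.  So `log |Λ_{-κ}|` has the expected size everywhere, and potential
theory gives the distribution of the zeros.
-/

set_option autoImplicit false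

open Complex UpperHalfPlane CongruenceSubgroup MatrixGroups Filter Topology

namespace Pool.Agent.Results.MP_553913_nt.BackwardHeatFlow

/-- The coefficient `a_p` of `E : y² = x³ + a x + b` at a prime `p ∤ 2 (4a³ + 27b²)`: `p` minus the
number of pairs `(x, y)` modulo `p` with `y² ≡ x³ + a x + b (mod p)`. -/
noncomputable def ap (a b : ℤ) (p : ℕ) : ℤ :=
  (p : ℤ) - (((Finset.range p ×ˢ Finset.range p).filter
    (fun xy : ℕ × ℕ => (p : ℤ) ∣ (xy.2 : ℤ) ^ 2 -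
      ((xy.1 : ℤ) ^ 3 + a * (xy.1 : ℤ) + b))).card : ℤ)

/-- The `n`-th Fourier coefficient of `f`. -/
noncomputable def coef {N : ℕ} (f : CuspForm (Gamma0 N : Subgroup (GL (Fin 2) ℝ)) 2) (n : ℕ) : ℂ :=
  (qExpansion 1 f).coeff n

/-- `f ∈ S_2(Γ₀(N))` is the newform of the elliptic curve `E : y² = x³ + a x + b` of conductor `N` and
root number `w`: the Fourier coefficients `c(n)` of `f` are real with `c(1) = 1`, they satisfy the
Hecke relations `c(mn) = c(m) c(n)` for coprime `m`, `n` and `c(p^(j+2)) = c(p) c(p^(j+1)) - p c(p^j)`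
(without the last term if `p ∣ N`), `f(-1/(Nτ)) = -w N τ² f(τ)`, `c(p) = a_p(E)` for all primes
`p ∤ 2 (4a³ + 27b²)`, `|c(p)| ≤ 2 √p` for all `p ∤ N` (Hasse) and `c(p) = 0, 1, -1` for `p ∣ N`. -/
structure IsFormOf (a b : ℤ) (N : ℕ) (f : CuspForm (Gamma0 N : Subgroup (GL (Fin 2) ℝ)) 2) (w : ℝ) :
    Prop where
  one : coef f 1 = 1
  real : ∀ n, (coef f n).im = 0
  mul : ∀ m n : ℕ, Nat.Coprime m n → coef f (m * n) = coef f m * coef f n
  pow : ∀ p j : ℕ, p.Prime → coef f (p ^ (j + 2)) = coef f p * coef f (p ^ (j + 1)) -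
      (if p ∣ N then 0 else (p : ℂ) * coef f (p ^ j))
  sign : w = 1 ∨ w = -1
  fricke : ∀ τ τ' : ℍ, (τ' : ℂ) * ((N : ℂ) * (τ : ℂ)) = -1 →
    f τ' = -(w : ℂ) * (N : ℂ) * (τ : ℂ) ^ 2 * f τ
  points : ∀ p : ℕ, p.Prime → ¬ (p : ℤ) ∣ 2 * (4 * a ^ 3 + 27 * b ^ 2) → coef f p = (ap a b p : ℂ)
  good : ∀ p : ℕ, p.Prime → ¬ p ∣ N → ‖coef f p‖ ≤ 2 * Real.sqrt p
  bad : ∀ p : ℕ, p.Prime → p ∣ N → coef f p = 0 ∨ coef f p = 1 ∨ coef f p = -1

/-- Two weak consequences of the theory of Rankin (1939) and Selberg (1940): `short` follows from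
`∑_{n ≤ x} |c(n)|² / n = A x + O(x^(3/5))`, and `primes` follows from
`∑_{p ≤ x} (|c(p)|² / p) log p ∼ x`. -/
structure RankinSelberg {N : ℕ} (f : CuspForm (Gamma0 N : Subgroup (GL (Fin 2) ℝ)) 2) : Prop where
  short : ∃ C : ℝ, 0 < C ∧ ∀ x h : ℝ, 2 ≤ x → x / Real.log x ^ 3 ≤ h → h ≤ x →
    ∑ n ∈ Finset.Ioc ⌊x⌋₊ ⌊x + h⌋₊, ‖coef f n‖ ^ 2 / (n : ℝ) ≤ C * h
  primes : ∀ α β : ℝ, 0 < α → α < β → ∃ c T₀ : ℝ, 0 < c ∧ ∀ T : ℝ, T₀ ≤ T →
    c ≤ ∑ p ∈ (Finset.Ioc ⌊T ^ α⌋₊ ⌊T ^ β⌋₊).filter Nat.Prime, ‖coef f p‖ ^ 2 / (p : ℝ) ^ 2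

/-- `Λ` is the completed L-function of `f`: it is entire and
`Λ(s) = N^(s/2) (2π)^(-s) Γ(s) ∑ c(n) n^(-s)` for `Re s > 2`. -/
def IsCompleted {N : ℕ} (f : CuspForm (Gamma0 N : Subgroup (GL (Fin 2) ℝ)) 2) (Λ : ℂ → ℂ) : Prop :=
  Differentiable ℂ Λ ∧ ∀ s : ℂ, 2 < s.re →
    Λ s = ((Real.sqrt N / (2 * Real.pi) : ℝ) : ℂ) ^ s * Complex.Gamma s *
      ∑' n : ℕ, coef f (n + 1) * ((n + 1 : ℕ) : ℂ) ^ (-s)

/-- The backward heat flow `e^{-κ D²} Λ` (`D = d/ds`) as a Gaussian average on vertical lines: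
`π^(-1/2) ∫ exp (-v²) Λ(s + 2 i √κ v) dv`. -/
noncomputable def flow (κ : ℝ) (Λ : ℂ → ℂ) (s : ℂ) : ℂ :=
  ((1 / Real.sqrt Real.pi : ℝ) : ℂ) *
    ∫ v : ℝ, ((Real.exp (-v ^ 2) : ℝ) : ℂ) * Λ (s + Complex.I * ((2 * Real.sqrt κ * v : ℝ) : ℂ))

/-- The zeros of `e^{-κ D²} Λ` with `|s - 1| ≤ R`. -/
def zeros (κ : ℝ) (Λ : ℂ → ℂ) (R : ℝ) : Set ℂ := {s : ℂ | flow κ Λ s = 0 ∧ ‖s - 1‖ ≤ R}

/-- The number of zeros of `e^{-κ D²} Λ` in `A`, with multiplicity. -/
noncomputable def num (κ : ℝ) (Λ : ℂ → ℂ) (A : Set ℂ) : ℝ :=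
  ((∑ᶠ s ∈ A, analyticOrderNatAt (flow κ Λ) s : ℕ) : ℝ)

/-- **Main theorem.**  Let `E : y² = x³ + a x + b` be an elliptic curve over `ℚ` with newform `f` and
completed L-function `Λ`, and let `κ > 0`.  The function `e^{-κ D²} Λ` is entire, it has
`(2/π + o(1)) R log R` zeros with `|s - 1| ≤ R`; for `1/2 < u ≤ v ≤ 1` the proportion of them with
`2 u κ log R ≤ Re s - 1 ≤ 2 v κ log R` tends to `(v - u) / 2`, the same holds on the left of the line,
and for every `ε > 0` the proportion of the zeros which are not on the line `Re s = 1` is at least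
`1/2 - ε` for all large `R`. -/
theorem result (a b : ℤ) (_hE : 4 * a ^ 3 + 27 * b ^ 2 ≠ 0) (N : ℕ) [NeZero N]
    (f : CuspForm (Gamma0 N : Subgroup (GL (Fin 2) ℝ)) 2) (w : ℝ) (hf : IsFormOf a b N f w)
    (hRS : RankinSelberg f) :
    ∃ Λ : ℂ → ℂ, IsCompleted f Λ ∧ (∀ Λ', IsCompleted f Λ' → Λ' = Λ) ∧
      (∀ s : ℂ, Λ (2 - s) = (w : ℂ) * Λ s) ∧ ∀ κ : ℝ, 0 < κ →
        Differentiable ℂ (flow κ Λ) ∧ (∀ R : ℝ, (zeros κ Λ R).Finite) ∧
        Tendsto (fun R : ℝ => num κ Λ (zeros κ Λ R) / (R * Real.log R)) atTop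
          (𝓝 (2 / Real.pi)) ∧
        (∀ u v : ℝ, 1 / 2 < u → u ≤ v → v ≤ 1 →
          Tendsto (fun R : ℝ => num κ Λ {s | s ∈ zeros κ Λ R ∧
            u * (2 * κ * Real.log R) ≤ s.re - 1 ∧ s.re - 1 ≤ v * (2 * κ * Real.log R)} /
              num κ Λ (zeros κ Λ R)) atTop (𝓝 ((v - u) / 2)) ∧
          Tendsto (fun R : ℝ => num κ Λ {s | s ∈ zeros κ Λ R ∧
            u * (2 * κ * Real.log R) ≤ 1 - s.re ∧ 1 - s.re ≤ v * (2 * κ * Real.log R)} /
              num κ Λ (zeros κ Λ R)) atTop (𝓝 ((v - u) / 2))) ∧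
        ∀ ε : ℝ, 0 < ε → ∀ᶠ R : ℝ in atTop,
          (1 / 2 - ε) * num κ Λ (zeros κ Λ R) ≤
            num κ Λ {s | s ∈ zeros κ Λ R ∧ s.re ≠ 1} := by
  have hf' : Pool.Agent.W169.HF.IsForm N f w :=
    { one := hf.one
      real := hf.real
      mul := hf.mul
      pow := hf.pow
      sign := hf.sign
      fricke := hf.fricke
      good := hf.good
      bad := fun p hp hpN => by
        have h1 : (1 : ℝ) ≤ Real.sqrt p := by
          rw [Real.one_le_sqrt]
          exact_mod_cast hp.one_le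
        have h2 : ‖coef f p‖ ≤ 1 := by
          rcases hf.bad p hp hpN with h | h | h <;> simp [h]
        exact h2.trans h1 }
  obtain ⟨Λ, hΛ, hfe, -, -⟩ := Pool.Agent.W470.BG.NF1L.nf1l N f w hf'
  have huniq : ∀ Λ', IsCompleted f Λ' → Λ' = Λ := by
    intro Λ' h
    have hev : Λ' =ᶠ[𝓝 (3 : ℂ)] Λ := by
      have hopen : IsOpen {s : ℂ | 2 < s.re} := isOpen_lt continuous_const Complex.continuous_re
      filter_upwards [hopen.mem_nhds (show (3 : ℂ) ∈ {s : ℂ | 2 < s.re} by simp; norm_num)] with s hs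
      rw [h.2 s hs, hΛ.2 s hs]
      rfl
    exact AnalyticOnNhd.eq_of_eventuallyEq (fun z _ => h.1.analyticAt z)
      (fun z _ => hΛ.1.analyticAt z) hev
  refine ⟨Λ, hΛ, huniq, hfe, ?_⟩
  intro κ hκ
  have hsq : ∀ n : ℕ, ‖Pool.Agent.W169.HF.coef f n / ((Real.sqrt n : ℝ) : ℂ)‖ ^ 2 =
      ‖coef f n‖ ^ 2 / (n : ℝ) := by
    intro n
    rw [norm_div, div_pow, Complex.norm_real, Real.norm_eq_abs, sq_abs,
      Real.sq_sqrt (Nat.cast_nonneg n)]
    rfl
  have hs : Pool.Agent.W475.BG.Shrt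
      (fun n => Pool.Agent.W169.HF.coef f n / ((Real.sqrt n : ℝ) : ℂ)) := by
    obtain ⟨C, hC, h⟩ := hRS.short
    refine ⟨C, hC, fun x h' h1 h2 h3 => ?_⟩
    simp only [hsq]
    exact h x h' h1 h2 h3
  have hp : Pool.Agent.W475.BG.Prim
      (fun n => Pool.Agent.W169.HF.coef f n / ((Real.sqrt n : ℝ) : ℂ)) := by
    intro α β h1 h2
    obtain ⟨c, T₀, hc, h⟩ := hRS.primes α β h1 h2
    refine ⟨c, max T₀ 2, hc, le_max_right _ _, fun T hT => ?_⟩
    refine (h T ((le_max_left _ _).trans hT)).trans (le_of_eq ?_)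
    refine Finset.sum_congr rfl fun p _ => ?_
    rw [hsq, div_div, sq (p : ℝ)]
  obtain ⟨D, hD, hd, hL⟩ := Pool.Agent.W475.BG.Eci.eci Pool.Agent.W50.BG.prm Pool.Agent.W470.BG.NF1L.nf1l N f w hf' Λ hΛ hs hp
  obtain ⟨hY, hF⟩ := Pool.Agent.W475.BG.main D hD
  have hN : (0 : ℝ) < N := by exact_mod_cast Nat.pos_of_ne_zero (NeZero.ne N)
  have hc : ((2 * (N : ℝ) ^ (-(1 / 4) : ℝ) : ℝ) : ℂ) ≠ 0 := by
    have : 0 < 2 * (N : ℝ) ^ (-(1 / 4) : ℝ) := by positivity
    exact_mod_cast this.ne'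
  have hL' : ∀ s, D.Lam s = ((2 * (N : ℝ) ^ (-(1 / 4) : ℝ) : ℝ) : ℂ) *
      Λ (s + (((1 : ℝ) - 1 / 2 : ℝ) : ℂ)) := by
    intro s
    rw [hL]
    have : s + 1 / 2 = s + (((1 : ℝ) - 1 / 2 : ℝ) : ℂ) := by push_cast; ring
    rw [this]
  have hlaw := Pool.Agent.W475.BG.flw hY hF hc hL' κ hκ
  rw [hd] at hlaw
  have hcast : ((2 : ℕ) : ℝ) = 2 := by norm_num
  have h6 : (((1 : ℝ)) : ℂ) = 1 := by push_cast; rfl
  have hz : ∀ R, Pool.Agent.W475.BG.zeros κ Λ 1 R = zeros κ Λ R := by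
    intro R
    unfold Pool.Agent.W475.BG.zeros zeros
    rw [h6]
    rfl
  have hnum : ∀ A, Pool.Agent.W475.BG.num κ Λ A = num κ Λ A := fun A => rfl
  rw [hcast] at hlaw
  simp only [hz, hnum] at hlaw
  obtain ⟨h1, h2, h3, h4⟩ := hlaw
  refine ⟨Pool.Agent.W475.BG.flow_diff hY hc hL' hκ, h1, h2, ?_, h4⟩
  intro u v hu huv hv
  exact h3 u v (by linarith) huv hv

end Pool.Agent.Results.MP_553913_nt.BackwardHeatFlow
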