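import Pool.Agent.W169.HF.Fam

/-!
# Zero-free half-planes of elliptic curve L-functions and the threshold of the heat flow

`E : y² = x³ + a x + b` is an elliptic curve over `ℚ` of conductor `N`, `Λ` its completed L-function,
`Λ_t = e^{t D²} Λ` (`D = d/ds`) its heat flow and `C = N (1 + |Im s|)²` the analytic conductor at `s`.
Let `P` be any class of elliptic curves (for example a single curve, or all curves).  We prove:

(1) if for every `ε > 0` there are no zeros of `Λ` with `Re s ≥ 1 + ϑ + ε` and `C ≥ C₀(ε)`, `E ∈ P`, then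
for all `ε, X > 0` all zeros of `Λ_t` with `2ϑ + ε ≤ t log C ≤ X`, `C ≥ C₀(ε, X)` are on the line
`Re s = 1`, and the de Bruijn-Newman constants are at most `(2ϑ + o(1)) / log N`, `N → ∞`;

(2) if for all `ε, X > 0` all zeros of `Λ_t` with `κ + ε ≤ t log C ≤ X`, `C ≥ C₀(ε, X)` are on the line,
then for every `ε > 0` there are no zeros of `Λ` with `Re s ≥ 1 + κ + ε`, `C ≥ C₀(ε)`; if only the de
Bruijn-Newman constants are at most `(κ + o(1)) / log N`, this holds at bounded height for `N ≥ N₀(ε, T)`.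

So the Riemann hypothesis in the asymptotic sense (`ϑ = 0`) is equivalent to the statement on `Λ_t` with
`κ = 0`; unconditionally both statements on `Λ_t` are true for `κ = 1` (hand-in `NewmanConductor`).

Proof (modules `Pool.Agent.W169.HF`): (1) three circles theorem for `log` of `Λ` divided by its gamma
factor and a complex saddle point for the half-line integrals whose sum is `Λ_t`; (2) the inverse heat
flow along vertical lines and a saddle point for `Λ_t`.  Both implications are local: the zeros of the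
other function are used only at bounded distance.  Project of helper169 with helpers 45, 85, 186, 327,
351, 363, 366, 397, 565, 736 and those of `NewmanConductor`.
-/

set_option autoImplicit false

open Complex UpperHalfPlane MatrixGroups CongruenceSubgroup

namespace Pool.Agent.Results.MP_553913_nt.HeatThreshold

/-- The coefficient `a_p` of `E : y² = x³ + a x + b` at a prime `p ∤ 2 (4a³ + 27b²)`: `p` minus the
number of pairs `(x, y)` modulo `p` with `y² ≡ x³ + a x + b (mod p)`. -/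
noncomputable def ap (a b : ℤ) (p : ℕ) : ℤ :=
  (p : ℤ) - (((Finset.range p ×ˢ Finset.range p).filter
    (fun xy : ℕ × ℕ => (p : ℤ) ∣ (xy.2 : ℤ) ^ 2 -
      ((xy.1 : ℤ) ^ 3 + a * (xy.1 : ℤ) + b))).card : ℤ)

/-- The `n`-th Fourier coefficient of `f`. -/
noncomputable def coef {N : ℕ} (f : CuspForm (Gamma0 N : Subgroup (GL (Fin 2) ℝ)) 2) (n : ℕ) : ℂ :=
  (qExpansion 1 f).coeff n

/-- `f ∈ S_2(Γ₀(N))` is the newform of the elliptic curve `E : y² = x³ + a x + b` of conductor `N` and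
root number `w`: the Fourier coefficients `c(n)` of `f` are real with `c(1) = 1`, they satisfy the
Hecke relations `c(mn) = c(m) c(n)` for coprime `m`, `n` and `c(p^(j+2)) = c(p) c(p^(j+1)) - p c(p^j)`
(without the last term if `p ∣ N`), `f(-1/(Nτ)) = -w N τ² f(τ)`, `c(p) = a_p(E)` for all primes
`p ∤ 2 (4a³ + 27b²)`, `|c(p)| ≤ 2 √p` for all `p ∤ N` (Hasse) and `c(p) = 0, 1, -1` for `p ∣ N`. -/
structure IsFormOf (a b : ℤ) (N : ℕ) (f : CuspForm (Gamma0 N : Subgroup (GL (Fin 2) ℝ)) 2) (w : ℝ) :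
    Prop where
  one : coef f 1 = 1
  real : ∀ n, (coef f n).im = 0
  mul : ∀ m n : ℕ, Nat.Coprime m n → coef f (m * n) = coef f m * coef f n
  pow : ∀ p j : ℕ, p.Prime → coef f (p ^ (j + 2)) = coef f p * coef f (p ^ (j + 1)) -
      (if p ∣ N then 0 else (p : ℂ) * coef f (p ^ j))
  sign : w = 1 ∨ w = -1
  fricke : ∀ τ τ' : ℍ, (τ' : ℂ) * ((N : ℂ) * (τ : ℂ)) = -1 →
    f τ' = -(w : ℂ) * (N : ℂ) * (τ : ℂ) ^ 2 * f τ
  points : ∀ p : ℕ, p.Prime → ¬ (p : ℤ) ∣ 2 * (4 * a ^ 3 + 27 * b ^ 2) → coef f p = (ap a b p : ℂ)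
  good : ∀ p : ℕ, p.Prime → ¬ p ∣ N → ‖coef f p‖ ≤ 2 * Real.sqrt p
  bad : ∀ p : ℕ, p.Prime → p ∣ N → coef f p = 0 ∨ coef f p = 1 ∨ coef f p = -1

/-- `Λ` is the completed L-function of `f`: it is entire and
`Λ(s) = N^(s/2) (2π)^(-s) Γ(s) ∑ c(n) n^(-s)` for `Re s > 2`. -/
def IsCompleted {N : ℕ} (f : CuspForm (Gamma0 N : Subgroup (GL (Fin 2) ℝ)) 2) (Λ : ℂ → ℂ) : Prop :=
  Differentiable ℂ Λ ∧ ∀ s : ℂ, 2 < s.re →
    Λ s = ((Real.sqrt N / (2 * Real.pi) : ℝ) : ℂ) ^ s * Complex.Gamma s *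
      ∑' n : ℕ, coef f (n + 1) * ((n + 1 : ℕ) : ℂ) ^ (-s)

/-- The heat flow `Λ_t = e^{t D²} Λ` (`D = d/ds`) as a Gaussian average:
`Λ_t(s) = π^(-1/2) ∫ exp (-v²) Λ(s + 2 √t v) dv`. -/
noncomputable def heat (t : ℝ) (Λ : ℂ → ℂ) (s : ℂ) : ℂ :=
  ((1 / Real.sqrt Real.pi : ℝ) : ℂ) *
    ∫ v : ℝ, ((Real.exp (-v ^ 2) : ℝ) : ℂ) * Λ (s + ((2 * Real.sqrt t * v : ℝ) : ℂ))

/-- `Q N Λ` holds for all elliptic curves `y² = x³ + a x + b` with `P a b`, their conductor `N` and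
completed L-function `Λ`. -/
def ForCurves (P : ℤ → ℤ → Prop) (Q : ℝ → (ℂ → ℂ) → Prop) : Prop :=
  ∀ (a b : ℤ) (N : ℕ) [NeZero N] (f : CuspForm (Gamma0 N : Subgroup (GL (Fin 2) ℝ)) 2) (w : ℝ)
    (Λ : ℂ → ℂ), P a b → 4 * a ^ 3 + 27 * b ^ 2 ≠ 0 → IsFormOf a b N f w → IsCompleted f Λ → Q N Λ

/-- For every `ε > 0`: no zeros of `Λ` with `Re s ≥ 1 + ϑ + ε` for large analytic conductor. -/
def ZeroFree (P : ℤ → ℤ → Prop) (ϑ : ℝ) : Prop :=
  ∀ ε : ℝ, 0 < ε → ∃ C₀ : ℝ, ForCurves P fun N Λ =>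
    ∀ s : ℂ, C₀ ≤ N * (1 + |s.im|) ^ 2 → 1 + ϑ + ε ≤ s.re → Λ s ≠ 0

/-- For every `ε > 0`, `X`: the zeros `s` of `Λ_t` with `κ + ε ≤ t log C ≤ X` are on the line `Re s = 1`
if the analytic conductor `C = N (1 + |Im s|)²` is large. -/
def HeatOnLine (P : ℤ → ℤ → Prop) (κ : ℝ) : Prop :=
  ∀ ε X : ℝ, 0 < ε → ∃ C₀ : ℝ, ForCurves P fun N Λ =>
    ∀ (t : ℝ) (s : ℂ), 0 < t → C₀ ≤ N * (1 + |s.im|) ^ 2 →
      κ + ε ≤ t * Real.log (N * (1 + |s.im|) ^ 2) → t * Real.log (N * (1 + |s.im|) ^ 2) ≤ X →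
      heat t Λ s = 0 → s.re = 1

/-- The de Bruijn-Newman constants are at most `(κ + o(1)) / log N` as `N → ∞`. -/
def NewmanBound (P : ℤ → ℤ → Prop) (κ : ℝ) : Prop :=
  ∀ η : ℝ, 0 < η → ∃ N₀ : ℝ, ForCurves P fun N Λ =>
    N₀ ≤ N → ∀ t : ℝ, (κ + η) / Real.log N ≤ t → ∀ s : ℂ, heat t Λ s = 0 → s.re = 1

/-- For every `ε > 0`, `T`: no zeros of `Λ` with `Re s ≥ 1 + κ + ε`, `|Im s| ≤ T` for large `N`. -/
def ZeroFreeLow (P : ℤ → ℤ → Prop) (κ : ℝ) : Prop :=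
  ∀ ε T : ℝ, 0 < ε → ∃ N₀ : ℝ, ForCurves P fun N Λ =>
    N₀ ≤ N → ∀ s : ℂ, |s.im| ≤ T → 1 + κ + ε ≤ s.re → Λ s ≠ 0

open Pool.Agent.W169.HF in
lemma form_of {a b : ℤ} {N : ℕ} {f : CuspForm (Gamma0 N : Subgroup (GL (Fin 2) ℝ)) 2} {w : ℝ}
    (hf : IsFormOf a b N f w) : IsForm N f w :=
  { one := hf.one
    real := hf.real
    mul := hf.mul
    pow := hf.pow
    sign := hf.sign
    fricke := hf.fricke
    good := hf.good
    bad := fun p hp hpN => by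
      have h1 : (1 : ℝ) ≤ Real.sqrt p := by
        rw [Real.one_le_sqrt]
        exact_mod_cast hp.one_le
      have h2 : ‖coef f p‖ ≤ 1 := by
        rcases hf.bad p hp hpN with h | h | h <;> simp [h]
      exact h2.trans h1 }

/-- the class of newforms of the curves in `P` -/
def cls (P : ℤ → ℤ → Prop) (N : ℕ) (f : CuspForm (Gamma0 N : Subgroup (GL (Fin 2) ℝ)) 2) : Prop :=
  ∃ (a b : ℤ) (w : ℝ), P a b ∧ 4 * a ^ 3 + 27 * b ^ 2 ≠ 0 ∧ IsFormOf a b N f w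

/-- **Main theorem.** For every class `P` of elliptic curves over `ℚ`:
(1) `ZeroFree P ϑ` implies `HeatOnLine P (2 ϑ)` and `NewmanBound P (2 ϑ)`;
(2) `HeatOnLine P κ` implies `ZeroFree P κ`, and `NewmanBound P κ` implies `ZeroFreeLow P κ`;
(3) `ZeroFree P 0` (the Riemann hypothesis in the asymptotic sense) is equivalent to
`HeatOnLine P 0`. -/
theorem result (P : ℤ → ℤ → Prop) :
    (∀ ϑ : ℝ, 0 ≤ ϑ → ZeroFree P ϑ → HeatOnLine P (2 * ϑ) ∧ NewmanBound P (2 * ϑ)) ∧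
    (∀ κ : ℝ, 0 ≤ κ → (HeatOnLine P κ → ZeroFree P κ) ∧ (NewmanBound P κ → ZeroFreeLow P κ)) ∧
    (ZeroFree P 0 ↔ HeatOnLine P 0) := by
  open Pool.Agent.W169.HF in
  have hA1 : ∀ ϑ, ZeroFree P ϑ → FA (cls P) ϑ := fun ϑ h ε hε => by
    obtain ⟨C0, H⟩ := h ε hε
    refine ⟨C0, ?_⟩
    rintro N _ f w ⟨a, b, w', hP, hE, hf⟩ _ Λ hΛ s h1 h2
    exact H a b N f w' Λ hP hE hf hΛ s h1 h2
  have hA2 : ∀ ϑ, FA (cls P) ϑ → ZeroFree P ϑ := fun ϑ h ε hε => by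
    obtain ⟨C0, H⟩ := h ε hε
    refine ⟨C0, ?_⟩
    intro a b N _ f w Λ hP hE hf hΛ s h1 h2
    exact H N f w ⟨a, b, w, hP, hE, hf⟩ (form_of hf) Λ hΛ s h1 h2
  have hH1 : ∀ κ, HeatOnLine P κ → FH (cls P) κ := fun κ h ε X hε => by
    obtain ⟨C0, H⟩ := h ε X hε
    refine ⟨C0, ?_⟩
    rintro N _ f w ⟨a, b, w', hP, hE, hf⟩ _ Λ hΛ t s h1 h2 h3 h4 h5
    exact H a b N f w' Λ hP hE hf hΛ t s h1 h2 h3 h4 h5
  have hH2 : ∀ κ, FH (cls P) κ → HeatOnLine P κ := fun κ h ε X hε => by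
    obtain ⟨C0, H⟩ := h ε X hε
    refine ⟨C0, ?_⟩
    intro a b N _ f w Λ hP hE hf hΛ t s h1 h2 h3 h4 h5
    exact H N f w ⟨a, b, w, hP, hE, hf⟩ (form_of hf) Λ hΛ t s h1 h2 h3 h4 h5
  have hD1 : ∀ κ, NewmanBound P κ → FD (cls P) κ := fun κ h η hη => by
    obtain ⟨N0, H⟩ := h η hη
    refine ⟨N0, ?_⟩
    rintro N _ f w ⟨a, b, w', hP, hE, hf⟩ _ Λ hΛ h1 t h2 s h3
    exact H a b N f w' Λ hP hE hf hΛ h1 t h2 s h3
  have hD2 : ∀ κ, FD (cls P) κ → NewmanBound P κ := fun κ h η hη => by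
    obtain ⟨N0, H⟩ := h η hη
    refine ⟨N0, ?_⟩
    intro a b N _ f w Λ hP hE hf hΛ h1 t h2 s h3
    exact H N f w ⟨a, b, w, hP, hE, hf⟩ (form_of hf) Λ hΛ h1 t h2 s h3
  have hL2 : ∀ κ, FL (cls P) κ → ZeroFreeLow P κ := fun κ h ε T hε => by
    obtain ⟨N0, H⟩ := h ε T hε
    refine ⟨N0, ?_⟩
    intro a b N _ f w Λ hP hE hf hΛ h1 s h2 h3
    exact H N f w ⟨a, b, w, hP, hE, hf⟩ (form_of hf) Λ hΛ h1 s h2 h3
  refine ⟨fun ϑ hϑ h => ?_, fun κ hκ => ⟨fun h => ?_, fun h => ?_⟩, fun h => ?_, fun h => ?_⟩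
  · have h1 := fa_fh hϑ (hA1 ϑ h)
    exact ⟨hH2 _ h1, hD2 _ (fh_fd (by linarith) h1)⟩
  · exact hA2 κ (fh_fa hκ (hH1 κ h))
  · exact hL2 κ (fd_fl hκ (hD1 κ h))
  · have h1 := fa_fh le_rfl (hA1 0 h)
    rw [mul_zero] at h1
    exact hH2 0 h1
  · exact hA2 0 (fh_fa le_rfl (hH1 0 h))

end Pool.Agent.Results.MP_553913_nt.HeatThreshold
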