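import Pool.Agent.W169.HF.EC

/-!
# The de Bruijn-Newman constants of elliptic curves tend to 0 as the conductor tends to infinity

`E : y² = x³ + a x + b` is an elliptic curve over `ℚ` of conductor `N` and `Λ` its completed
L-function; `Λ_t = e^{t D²} Λ` (`D = d/ds`) is the heat flow of `Λ`.  If all zeros of `Λ_t` are on the
line `Re s = 1`, the same is true for all larger `t` (de Bruijn), and the Riemann hypothesis for `E`
says that this is so for all `t ≥ 0`.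

We prove, uniformly in `E` and unconditionally: for every `η > 0` there is `N₀` such that for every
elliptic curve of conductor `N ≥ N₀` and ALL `t ≥ (1 + η) / log N` all zeros of `Λ_t` are on the line
`Re s = 1`, so that the Riemann hypothesis for `E` is equivalent to the same statement in the remaining
region `0 < t < (1 + η) / log N`.  More precisely, for `t ≤ t₁` the zeros `s` of `Λ_t` with
`t ≥ (1 + η) / log (N (1 + |Im s|)²)`, `N (1 + |Im s|)² ≥ C₀` are on the line; here `N (1 + |Im s|)²` is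
the analytic conductor.

Proof (modules `Pool.Agent.W169.HF`): `Λ_t(1 + x + i y)` is a sum of two half-line integrals,
`h(x) ± conj h(-x)` up to a factor, and `|h(x)| > |h(-x)|` for `x > 0` by the saddle point method, the
saddle point being to the right of the half-plane of absolute convergence because of
`t log C ≥ 1 + η`; the monotonicity in `t` is de Bruijn's theorem for entire functions of growth
`exp (o(|z|²))`.  Project of helper169 with helpers 12, 32, 45, 174, 216, 346, 577, 578, 597, 613, 736,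
762, 806, 930, 959; it uses the starting modules `Pool.Agent.H353R7` and `Pool.Agent.H128R3`.
-/

set_option autoImplicit false

open Complex UpperHalfPlane MatrixGroups CongruenceSubgroup

namespace Pool.Agent.Results.MP_553913_nt.NewmanConductor

/-- The coefficient `a_p` of `E : y² = x³ + a x + b` at a prime `p ∤ 2 (4a³ + 27b²)`: `p` minus the
number of pairs `(x, y)` modulo `p` with `y² ≡ x³ + a x + b (mod p)`. -/
noncomputable def ap (a b : ℤ) (p : ℕ) : ℤ :=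
  (p : ℤ) - (((Finset.range p ×ˢ Finset.range p).filter
    (fun xy : ℕ × ℕ => (p : ℤ) ∣ (xy.2 : ℤ) ^ 2 -
      ((xy.1 : ℤ) ^ 3 + a * (xy.1 : ℤ) + b))).card : ℤ)

/-- The `n`-th Fourier coefficient of `f`. -/
noncomputable def coef {N : ℕ} (f : CuspForm (Gamma0 N : Subgroup (GL (Fin 2) ℝ)) 2) (n : ℕ) : ℂ :=
  (qExpansion 1 f).coeff n

/-- `f ∈ S_2(Γ₀(N))` is the newform of the elliptic curve `E : y² = x³ + a x + b` of conductor `N` and
root number `w`: the Fourier coefficients `c(n)` of `f` are real with `c(1) = 1`, they satisfy the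
Hecke relations `c(mn) = c(m) c(n)` for coprime `m`, `n` and `c(p^(j+2)) = c(p) c(p^(j+1)) - p c(p^j)`
(without the last term if `p ∣ N`), `f(-1/(Nτ)) = -w N τ² f(τ)`, `c(p) = a_p(E)` for all primes
`p ∤ 2 (4a³ + 27b²)`, `|c(p)| ≤ 2 √p` for all `p ∤ N` (Hasse) and `c(p) = 0, 1, -1` for `p ∣ N`. -/
structure IsFormOf (a b : ℤ) (N : ℕ) (f : CuspForm (Gamma0 N : Subgroup (GL (Fin 2) ℝ)) 2) (w : ℝ) :
    Prop where
  one : coef f 1 = 1
  real : ∀ n, (coef f n).im = 0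
  mul : ∀ m n : ℕ, Nat.Coprime m n → coef f (m * n) = coef f m * coef f n
  pow : ∀ p j : ℕ, p.Prime → coef f (p ^ (j + 2)) = coef f p * coef f (p ^ (j + 1)) -
      (if p ∣ N then 0 else (p : ℂ) * coef f (p ^ j))
  sign : w = 1 ∨ w = -1
  fricke : ∀ τ τ' : ℍ, (τ' : ℂ) * ((N : ℂ) * (τ : ℂ)) = -1 →
    f τ' = -(w : ℂ) * (N : ℂ) * (τ : ℂ) ^ 2 * f τ
  points : ∀ p : ℕ, p.Prime → ¬ (p : ℤ) ∣ 2 * (4 * a ^ 3 + 27 * b ^ 2) → coef f p = (ap a b p : ℂ)
  good : ∀ p : ℕ, p.Prime → ¬ p ∣ N → ‖coef f p‖ ≤ 2 * Real.sqrt p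
  bad : ∀ p : ℕ, p.Prime → p ∣ N → coef f p = 0 ∨ coef f p = 1 ∨ coef f p = -1

/-- `Λ` is the completed L-function of `f`: it is entire and
`Λ(s) = N^(s/2) (2π)^(-s) Γ(s) ∑ c(n) n^(-s)` for `Re s > 2`. -/
def IsCompleted {N : ℕ} (f : CuspForm (Gamma0 N : Subgroup (GL (Fin 2) ℝ)) 2) (Λ : ℂ → ℂ) : Prop :=
  Differentiable ℂ Λ ∧ ∀ s : ℂ, 2 < s.re →
    Λ s = ((Real.sqrt N / (2 * Real.pi) : ℝ) : ℂ) ^ s * Complex.Gamma s *
      ∑' n : ℕ, coef f (n + 1) * ((n + 1 : ℕ) : ℂ) ^ (-s)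

/-- The heat flow `Λ_t = e^{t D²} Λ` (`D = d/ds`) as a Gaussian average:
`Λ_t(s) = π^(-1/2) ∫ exp (-v²) Λ(s + 2 √t v) dv`. -/
noncomputable def heat (t : ℝ) (Λ : ℂ → ℂ) (s : ℂ) : ℂ :=
  ((1 / Real.sqrt Real.pi : ℝ) : ℂ) *
    ∫ v : ℝ, ((Real.exp (-v ^ 2) : ℝ) : ℂ) * Λ (s + ((2 * Real.sqrt t * v : ℝ) : ℂ))

/-- **Main theorem.** For every `η > 0` there are `t₁ > 0`, `C₀`, `N₀` such that for every elliptic
curve `E : y² = x³ + a x + b` over `ℚ` of conductor `N` the completed L-function `Λ` satisfies: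
(1) if `N ≥ N₀`, then for all `t ≥ (1 + η) / log N` all zeros of `Λ_t` are on the line `Re s = 1`;
(2) if `N ≥ N₀`, the Riemann hypothesis for `E` is equivalent to the same statement for
`0 < t < (1 + η) / log N`;
(3) if `Λ_t(s) = 0`, `0 < t ≤ t₁` and `C = N (1 + |Im s|)²` satisfies `C ≥ C₀`, `t log C ≥ 1 + η`, then
`Re s = 1`. -/
theorem result (η : ℝ) (hη : 0 < η) :
    ∃ t₁ C₀ N₀ : ℝ, 0 < t₁ ∧
      ∀ (a b : ℤ) (N : ℕ) [NeZero N] (f : CuspForm (Gamma0 N : Subgroup (GL (Fin 2) ℝ)) 2) (w : ℝ),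
      4 * a ^ 3 + 27 * b ^ 2 ≠ 0 → IsFormOf a b N f w →
      ∃ Λ : ℂ → ℂ, IsCompleted f Λ ∧ (∀ Λ', IsCompleted f Λ' → Λ' = Λ) ∧
        (∀ s : ℂ, Λ (2 - s) = (w : ℂ) * Λ s) ∧
        (N₀ ≤ N → ∀ t : ℝ, (1 + η) / Real.log N ≤ t → ∀ s : ℂ, heat t Λ s = 0 → s.re = 1) ∧
        (N₀ ≤ N → ((∀ s : ℂ, Λ s = 0 → s.re = 1) ↔
          ∀ t : ℝ, 0 < t → t < (1 + η) / Real.log N → ∀ s : ℂ, heat t Λ s = 0 → s.re = 1)) ∧
        (∀ (t : ℝ) (s : ℂ), 0 < t → t ≤ t₁ → C₀ ≤ N * (1 + |s.im|) ^ 2 →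
          1 + η ≤ t * Real.log (N * (1 + |s.im|) ^ 2) → heat t Λ s = 0 → s.re = 1) := by
  obtain ⟨t1, C0, ht1, H1⟩ := Pool.Agent.W169.HF.nf_local hη
  obtain ⟨N0, hN0, H2⟩ := Pool.Agent.W169.HF.nf_global hη
  refine ⟨t1, C0, N0, ht1, ?_⟩
  intro a b N _ f w _ hf
  have hf' : Pool.Agent.W169.HF.IsForm N f w :=
    { one := hf.one
      real := hf.real
      mul := hf.mul
      pow := hf.pow
      sign := hf.sign
      fricke := hf.fricke
      good := hf.good
      bad := fun p hp hpN => by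
        have h1 : (1 : ℝ) ≤ Real.sqrt p := by
          rw [Real.one_le_sqrt]
          exact_mod_cast hp.one_le
        have h2 : ‖coef f p‖ ≤ 1 := by
          rcases hf.bad p hp hpN with h | h | h <;> simp [h]
        exact h2.trans h1 }
  obtain ⟨Λ, hΛ, hfe, -, -⟩ := Pool.Agent.W174.HF.nf1 N f w hf'
  refine ⟨Λ, hΛ, fun Λ' h' => Pool.Agent.W169.HF.completed_unique h' hΛ, hfe, ?_, ?_, ?_⟩
  · intro hN t ht s hs
    exact H2 N f w hf' Λ hΛ hN t s ht hs
  · intro hN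
    have hlog : 0 < Real.log N := Real.log_pos (by linarith)
    exact Pool.Agent.W169.HF.nf_iff N f w hf' Λ hΛ (T := (1 + η) / Real.log N) (by positivity)
  · intro t s ht htt hC htC hs
    exact H1 N f w hf' Λ hΛ t s ht htt hC htC hs

end Pool.Agent.Results.MP_553913_nt.NewmanConductor
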