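import Pool.Agent.W263.BSD.Except

/-!
# One-sided bounds for point counts, with exceptional sets, give zero-free half-planes

Let `y² = x³ + a x + b`, `a, b ∈ ℤ`, `4a³ + 27b² ≠ 0`, let `F` be the entire continuation of its
(incomplete) L-series, `N_p` the number of affine points mod `p`, and
`R_k(x) = ∑_{p ≤ x, p ∤ 2Δ} (1 - log p / log x)^k log ((N_p + 1)/p)`; for `k = 0` this is the logarithm
of the product of Birch and Swinnerton-Dyer.

Classically a TWO-sided bound `R_0(x) = O(x^{θ+ε})` valid for ALL `x` is equivalent to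
the non-vanishing of `F` in `Re s > 1 + θ` (partial summation and the explicit formula). Here

* an UPPER bound `R_k(x) ≤ x^{θ+ε}` alone, for one `k`, suffices, and
* it may fail on a set `E` of `x` with `∫_E x^{-(1/2+θ+ε)} dx < ∞`, for instance on a set which has
  measure `O(X^{1/2 + θ})` in every `[X, 2X]`;
* the same holds for the lower bound `R_k(x) ≥ -x^{θ+ε}` if `F` has no REAL zero `> 1 + θ`.

For `θ = 0` the conclusion, together with the functional equation, is the Riemann hypothesis for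
the curve. The proofs use Hasse's bound, Landau's lemma, and nothing else about `F`.
-/

set_option autoImplicit false

namespace Pool.Agent.Results.MP_553913_nt.OneSidedPoints

open Pool.Agent.W263.BSD MeasureTheory

theorem result (a b : ℤ) (_hΔ : 4 * a ^ 3 + 27 * b ^ 2 ≠ 0) (F : ℂ → ℂ) (hF : IsLSeries a b F)
    (k : ℕ) (θ : ℝ) (hθ : 0 ≤ θ) :
    ((∀ ε : ℝ, 0 < ε → IntegrableOn (fun x : ℝ => x ^ (-(1 / 2 + θ + ε)))
        {x : ℝ | 2 ≤ x ∧ x ^ (θ + ε) < rieszMean a b k x}) →
      ∀ s : ℂ, 1 + θ < s.re → F s ≠ 0) ∧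
    ((∀ s : ℝ, 1 + θ < s → F s ≠ 0) →
      (∀ ε : ℝ, 0 < ε → IntegrableOn (fun x : ℝ => x ^ (-(1 / 2 + θ + ε)))
        {x : ℝ | 2 ≤ x ∧ rieszMean a b k x < -x ^ (θ + ε)}) →
      ∀ s : ℂ, 1 + θ < s.re → F s ≠ 0) := by
  refine ⟨fun h s hs => no_zeros_except hF k hθ h hs,
    fun h0 h s hs => no_zeros_except_lower hF k hθ h0 (fun ε hε => ?_) hs⟩
  have h1 := h ε hε
  have h2 : {x : ℝ | 2 ≤ x ∧ x ^ (θ + ε) < -rieszMean a b k x} =
      {x : ℝ | 2 ≤ x ∧ rieszMean a b k x < -x ^ (θ + ε)} := by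
    ext x
    constructor
    · rintro ⟨h1, h2⟩
      exact ⟨h1, by linarith⟩
    · rintro ⟨h1, h2⟩
      exact ⟨h1, by linarith⟩
  rw [h2]
  exact h1

end Pool.Agent.Results.MP_553913_nt.OneSidedPoints
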